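import Pool.Agent.Helper93.ET.St

/-!
# Project ET (MP_b1e6de_al): module ISO, comparison of the two algebras
-/

set_option autoImplicit false

noncomputable section

namespace Pool.Agent.Helper38.ET

open MvPolynomial Matrix TensorProduct
open Pool.Agent.Helper93.ET

theorem iso_add_pow {B : Type} [CommRing B] (p a : ℕ) (hp : p.Prime) (h0 : (p : B) = 0) (x y : B) :
    (x + y) ^ (p ^ a) = x ^ (p ^ a) + y ^ (p ^ a) := by
  have := Fact.mk hp
  rcases subsingleton_or_nontrivial B with h | h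
  · exact Subsingleton.elim _ _
  · have : CharP B p := ringChar.of_eq (CharP.ringChar_of_prime_eq_zero hp h0)
    exact add_pow_char_pow x y p a

/-- the `q`-power homomorphism -/
def phi (B : Type) [CommRing B] (p a : ℕ) (hp : p.Prime) (h0 : (p : B) = 0) : B →+* B where
  toFun x := x ^ (p ^ a)
  map_one' := one_pow _
  map_mul' x y := mul_pow x y _
  map_zero' := zero_pow (pow_ne_zero a hp.ne_zero)
  map_add' := iso_add_pow p a hp h0

/-- homomorphisms from `EG` -/
def liftG {A B : Type} [CommRing A] [CommRing B] [Algebra A B] {n : ℕ} (q : ℕ)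
    (G : Matrix (Fin n) (Fin n) A) (x : Fin n → B)
    (hx : ∀ j, x j ^ q = ∑ i, algebraMap A B (G i j) * x i) : EG q G →ₐ[A] B :=
  Ideal.Quotient.liftₐ (relG q G) (aeval x) (by
    intro b hb
    have hle : relG q G ≤ RingHom.ker (aeval x : MvPolynomial (Fin n) A →ₐ[A] B) := by
      unfold relG
      rw [Ideal.span_le]
      rintro _ ⟨j, rfl⟩
      rw [SetLike.mem_coe, RingHom.mem_ker]
      simp [hx j]
    exact RingHom.mem_ker.mp (hle hb))

/-- homomorphisms from `EF` -/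
def liftF {A B : Type} [CommRing A] [CommRing B] [Algebra A B] {n : ℕ} (q : ℕ)
    (F : Matrix (Fin n) (Fin n) A) (x : Fin n → B)
    (hx : ∀ j, x j = ∑ i, algebraMap A B (F i j) * x i ^ q) : EF q F →ₐ[A] B :=
  Ideal.Quotient.liftₐ (relF q F) (aeval x) (by
    intro b hb
    have hle : relF q F ≤ RingHom.ker (aeval x : MvPolynomial (Fin n) A →ₐ[A] B) := by
      unfold relF
      rw [Ideal.span_le]
      rintro _ ⟨j, rfl⟩
      rw [SetLike.mem_coe, RingHom.mem_ker]
      simp only [map_sub, aeval_X, map_sum, map_mul, algHom_C, map_pow]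
      rw [← hx j, sub_self]
    exact RingHom.mem_ker.mp (hle hb))

/-- the generators of `EG` -/
def xG {A : Type} [CommRing A] {n : ℕ} (q : ℕ) (G : Matrix (Fin n) (Fin n) A) (j : Fin n) : EG q G :=
  Ideal.Quotient.mk (relG q G) (X j)

/-- the generators of `EF` -/
def xF {A : Type} [CommRing A] {n : ℕ} (q : ℕ) (F : Matrix (Fin n) (Fin n) A) (j : Fin n) : EF q F :=
  Ideal.Quotient.mk (relF q F) (X j)

theorem xG_rel {A : Type} [CommRing A] {n : ℕ} (q : ℕ) (G : Matrix (Fin n) (Fin n) A) (j : Fin n) :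
    xG q G j ^ q = ∑ i, algebraMap A (EG q G) (G i j) * xG q G i := by
  have h : (X j ^ q - ∑ i, C (G i j) * X i : MvPolynomial (Fin n) A) ∈ relG q G :=
    Ideal.subset_span ⟨j, rfl⟩
  have h2 := Ideal.Quotient.eq_zero_iff_mem.mpr h
  rw [map_sub, sub_eq_zero] at h2
  unfold xG
  rw [← map_pow, h2, map_sum]
  apply Finset.sum_congr rfl
  intro i _
  rw [map_mul]
  rfl

theorem xF_rel {A : Type} [CommRing A] {n : ℕ} (q : ℕ) (F : Matrix (Fin n) (Fin n) A) (j : Fin n) :
    xF q F j = ∑ i, algebraMap A (EF q F) (F i j) * xF q F i ^ q := by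
  have h : (X j - ∑ i, C (F i j) * X i ^ q : MvPolynomial (Fin n) A) ∈ relF q F :=
    Ideal.subset_span ⟨j, rfl⟩
  have h2 := Ideal.Quotient.eq_zero_iff_mem.mpr h
  rw [map_sub, sub_eq_zero] at h2
  unfold xF
  rw [h2, map_sum]
  apply Finset.sum_congr rfl
  intro i _
  rw [map_mul, map_pow]
  rfl

theorem liftG_x {A B : Type} [CommRing A] [CommRing B] [Algebra A B] {n : ℕ} (q : ℕ)
    (G : Matrix (Fin n) (Fin n) A) (x : Fin n → B)
    (hx : ∀ j, x j ^ q = ∑ i, algebraMap A B (G i j) * x i) (j : Fin n) :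
    liftG q G x hx (xG q G j) = x j := by
  exact aeval_X x j

theorem liftF_x {A B : Type} [CommRing A] [CommRing B] [Algebra A B] {n : ℕ} (q : ℕ)
    (F : Matrix (Fin n) (Fin n) A) (x : Fin n → B)
    (hx : ∀ j, x j = ∑ i, algebraMap A B (F i j) * x i ^ q) (j : Fin n) :
    liftF q F x hx (xF q F j) = x j := by
  exact aeval_X x j

theorem extG {A B : Type} [CommRing A] [CommRing B] [Algebra A B] {n : ℕ} (q : ℕ)
    (G : Matrix (Fin n) (Fin n) A) (f g : EG q G →ₐ[A] B) (h : ∀ j, f (xG q G j) = g (xG q G j)) :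
    f = g := by
  apply Ideal.Quotient.algHom_ext
  apply MvPolynomial.algHom_ext
  intro j
  exact h j

theorem extF {A B : Type} [CommRing A] [CommRing B] [Algebra A B] {n : ℕ} (q : ℕ)
    (F : Matrix (Fin n) (Fin n) A) (f g : EF q F →ₐ[A] B) (h : ∀ j, f (xF q F j) = g (xF q F j)) :
    f = g := by
  apply Ideal.Quotient.algHom_ext
  apply MvPolynomial.algHom_ext
  intro j
  exact h j

theorem extT {A B : Type} [CommRing A] [CommRing B] [Algebra A B] {n k : ℕ} (q : ℕ)
    (F : Matrix (Fin n) (Fin n) A) (G : Matrix (Fin k) (Fin k) A)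
    (f g : TensorProduct A (EF q F) (EG q G) →ₐ[A] B)
    (h1 : ∀ j, f (xF q F j ⊗ₜ[A] (1 : EG q G)) = g (xF q F j ⊗ₜ[A] (1 : EG q G)))
    (h2 : ∀ j, f ((1 : EF q F) ⊗ₜ[A] xG q G j) = g ((1 : EF q F) ⊗ₜ[A] xG q G j)) : f = g := by
  have e1 : f.comp (Algebra.TensorProduct.includeLeft (S := A)) =
      g.comp (Algebra.TensorProduct.includeLeft (S := A)) := extF q F _ _ h1
  have e2 : f.comp Algebra.TensorProduct.includeRight =
      g.comp Algebra.TensorProduct.includeRight := extG q G _ _ h2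
  exact Algebra.TensorProduct.ext e1 e2

section
variable {A B : Type} [CommRing A] [CommRing B] [Algebra A B] {m n k : ℕ}

/-- base change of matrices -/
def mp (B : Type) [CommRing B] [Algebra A B] (M : Matrix (Fin m) (Fin n) A) :
    Matrix (Fin m) (Fin n) B := M.map (algebraMap A B)

theorem mp_mul (M : Matrix (Fin m) (Fin n) A) (N : Matrix (Fin n) (Fin k) A) :
    mp B (M * N) = mp B M * mp B N := Matrix.map_mul

theorem mp_zero : mp B (0 : Matrix (Fin m) (Fin n) A) = 0 := by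
  ext i j; simp [mp]

theorem mp_one : mp B (1 : Matrix (Fin n) (Fin n) A) = 1 := by
  unfold mp
  exact Matrix.map_one _ (map_zero _) (map_one _)

theorem mp_add (M N : Matrix (Fin m) (Fin n) A) : mp B (M + N) = mp B M + mp B N := by
  ext i j; simp [mp]

theorem mp_fr (p a : ℕ) (hp : p.Prime) (h0 : (p : B) = 0) (M : Matrix (Fin m) (Fin n) A) :
    mp B (fr (p ^ a) M) = (mp B M).map (phi B p a hp h0) := by
  ext i j
  simp [mp, fr, phi]

/-- sums as products of a row and a matrix -/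
theorem vm_apply (M : Matrix (Fin m) (Fin n) A) (x : Fin m → B) (j : Fin n) :
    (x ᵥ* mp B M) j = ∑ i, algebraMap A B (M i j) * x i := by
  unfold Matrix.vecMul dotProduct
  apply Finset.sum_congr rfl
  intro i _
  rw [mul_comm]
  rfl

theorem phi_vm (p a : ℕ) (hp : p.Prime) (h0 : (p : B) = 0) (x : Fin m → B)
    (M : Matrix (Fin m) (Fin n) B) :
    (fun j => (x ᵥ* M) j ^ (p ^ a)) =
      (fun i => x i ^ (p ^ a)) ᵥ* M.map (phi B p a hp h0) := by
  funext j
  exact RingHom.map_vecMul (phi B p a hp h0) M x j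

theorem map_vm {B' : Type} [CommRing B'] [Algebra A B'] (f : B →ₐ[A] B') (x : Fin m → B)
    (M : Matrix (Fin m) (Fin n) A) (j : Fin n) :
    f ((x ᵥ* mp B M) j) = ((fun i => f (x i)) ᵥ* mp B' M) j := by
  rw [vm_apply, vm_apply, map_sum]
  apply Finset.sum_congr rfl
  intro i _
  rw [map_mul, AlgHom.commutes]

end

theorem hISO (h1 : StMAT) : StISO := by
  intro A _ p a n k hp h0 D
  obtain ⟨hee, hVe, heW, hFe, hFW, hGF, hFG, hGe, hGW, hVG, hHW, hHF⟩ := h1 A p a n k hp h0 D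
  -- characteristic of an algebra
  have hch : ∀ (B : Type) [CommRing B] [Algebra A B], (p : B) = 0 := by
    intro B _ _
    rw [← map_natCast (algebraMap A B), h0, map_zero]
  -- solutions in `EG (p ^ a) H`
  have hx0 : ∀ (B : Type) [CommRing B] [Algebra A B] (x : Fin n → B),
      (fun j => x j ^ (p ^ a)) = x ᵥ* mp B D.H →
      ((fun j => (x ᵥ* mp B D.e) j) = (fun i => ((x ᵥ* mp B D.e) i) ^ (p ^ a)) ᵥ* mp B D.F) ∧
      ((fun i => (x ᵥ* mp B D.W) i ^ (p ^ a)) = x ᵥ* mp B D.W) := by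
    intro B _ _ x hx
    constructor
    · rw [phi_vm p a hp (hch B), hx, ← mp_fr p a hp (hch B), Matrix.vecMul_vecMul,
        Matrix.vecMul_vecMul, ← mp_mul, ← mp_mul, ← Matrix.mul_assoc, hHF]
    · rw [phi_vm p a hp (hch B), hx, ← mp_fr p a hp (hch B), Matrix.vecMul_vecMul,
        ← mp_mul, hHW]
  -- solutions from pairs
  have hy0 : ∀ (B : Type) [CommRing B] [Algebra A B] (y : Fin n → B) (c : Fin k → B),
      y = (fun i => y i ^ (p ^ a)) ᵥ* mp B D.F → (fun i => c i ^ (p ^ a)) = c →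
      (fun j => (y + c ᵥ* mp B D.V) j ^ (p ^ a)) = (y + c ᵥ* mp B D.V) ᵥ* mp B D.H ∧
      (y + c ᵥ* mp B D.V) ᵥ* mp B D.e = y ∧ (y + c ᵥ* mp B D.V) ᵥ* mp B D.W = c := by
    intro B _ _ y c hy hc
    have hyW : y ᵥ* mp B D.W = 0 := by
      rw [hy, Matrix.vecMul_vecMul, ← mp_mul, hFW, mp_zero, Matrix.vecMul_zero]
    have hye : y ᵥ* mp B D.e = y := by
      conv_lhs => rw [hy]
      rw [Matrix.vecMul_vecMul, ← mp_mul, hFe, ← hy]
    have hyG : y ᵥ* mp B D.G = fun i => y i ^ (p ^ a) := by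
      conv_lhs => rw [hy]
      rw [Matrix.vecMul_vecMul, ← mp_mul, hFG, mp_fr p a hp (hch B), ← phi_vm, hye]
    refine ⟨?_, ?_, ?_⟩
    · have h1 : (fun j => (y + c ᵥ* mp B D.V) j ^ (p ^ a)) =
          (fun j => y j ^ (p ^ a)) + (fun j => (c ᵥ* mp B D.V) j ^ (p ^ a)) := by
        funext j
        exact iso_add_pow p a hp (hch B) _ _
      rw [h1, phi_vm p a hp (hch B), hc, ← mp_fr p a hp (hch B)]
      unfold Dat.H
      rw [mp_add, Matrix.vecMul_add, Matrix.add_vecMul, Matrix.add_vecMul, mp_mul,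
        Matrix.vecMul_vecMul, ← mp_mul, hVG, mp_zero, Matrix.vecMul_zero, add_zero, hyG,
        ← Matrix.vecMul_vecMul, hyW, Matrix.zero_vecMul, zero_add, Matrix.vecMul_vecMul,
        ← Matrix.mul_assoc, ← mp_mul, D.VW, mp_one, Matrix.one_mul]
    · rw [Matrix.add_vecMul, hye, Matrix.vecMul_vecMul, ← mp_mul, hVe, mp_zero,
        Matrix.vecMul_zero, add_zero]
    · rw [Matrix.add_vecMul, hyW, Matrix.vecMul_vecMul, ← mp_mul, D.VW, mp_one,
        Matrix.vecMul_one, zero_add]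
  -- the solutions
  let T := TensorProduct A (EF (p ^ a) D.F) (EG (p ^ a) (1 : Matrix (Fin k) (Fin k) A))
  let y : Fin n → T := fun j => xF (p ^ a) D.F j ⊗ₜ[A] (1 : EG (p ^ a) (1 : Matrix (Fin k) (Fin k) A))
  let c : Fin k → T := fun i => (1 : EF (p ^ a) D.F) ⊗ₜ[A] xG (p ^ a) (1 : Matrix (Fin k) (Fin k) A) i
  have hy : y = (fun i => y i ^ (p ^ a)) ᵥ* mp T D.F := by
    funext j
    rw [vm_apply]
    have h2 := congrArg (Algebra.TensorProduct.includeLeft (S := A) :
      EF (p ^ a) D.F →ₐ[A] T) (xF_rel (p ^ a) D.F j)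
    rw [map_sum] at h2
    refine h2.trans ?_
    apply Finset.sum_congr rfl
    intro i _
    rw [map_mul, AlgHom.commutes, map_pow]
    rfl
  have hc : (fun i => c i ^ (p ^ a)) = c := by
    funext j
    have h2 := congrArg (Algebra.TensorProduct.includeRight :
      EG (p ^ a) (1 : Matrix (Fin k) (Fin k) A) →ₐ[A] T) (xG_rel (p ^ a) (1 : Matrix (Fin k) (Fin k) A) j)
    rw [map_pow, map_sum] at h2
    refine h2.trans ?_
    have h3 : ∀ i : Fin k, (Algebra.TensorProduct.includeRight :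
      EG (p ^ a) (1 : Matrix (Fin k) (Fin k) A) →ₐ[A] T) (algebraMap A _ ((1 : Matrix (Fin k) (Fin k) A) i j) *
        xG (p ^ a) (1 : Matrix (Fin k) (Fin k) A) i) = if i = j then c i else 0 := by
      intro i
      rw [map_mul, AlgHom.commutes, Matrix.one_apply]
      split_ifs with hij
      · rw [map_one, one_mul]; rfl
      · rw [map_zero, zero_mul]
    rw [Finset.sum_congr rfl (fun i _ => h3 i), Finset.sum_ite_eq' Finset.univ j c]
    simp
  obtain ⟨hx1, hx2, hx3⟩ := hy0 T y c hy hc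
  let E := EG (p ^ a) D.H
  let x : Fin n → E := xG (p ^ a) D.H
  have hx : (fun j => x j ^ (p ^ a)) = x ᵥ* mp E D.H := by
    funext j
    rw [vm_apply]
    exact xG_rel (p ^ a) D.H j
  obtain ⟨hxe, hxW⟩ := hx0 E x hx
  let f : E →ₐ[A] T := liftG (p ^ a) D.H (y + c ᵥ* mp T D.V) (fun j => by
    have h2 := congrFun hx1 j
    rw [vm_apply] at h2
    exact h2)
  let g1 : EF (p ^ a) D.F →ₐ[A] E := liftF (p ^ a) D.F (x ᵥ* mp E D.e) (fun j =>
    (congrFun hxe j).trans (vm_apply D.F _ j))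
  let g2 : EG (p ^ a) (1 : Matrix (Fin k) (Fin k) A) →ₐ[A] E := liftG (p ^ a) 1 (x ᵥ* mp E D.W) (fun j => by
    have h2 := congrFun hxW j
    have h3 : (x ᵥ* mp E D.W) j = ((x ᵥ* mp E D.W) ᵥ* mp E (1 : Matrix (Fin k) (Fin k) A)) j := by
      rw [mp_one, Matrix.vecMul_one]
    exact h2.trans (h3.trans (vm_apply (1 : Matrix (Fin k) (Fin k) A) _ j)))
  let g : T →ₐ[A] E := Algebra.TensorProduct.productMap g1 g2
  have hfx : ∀ j, f (x j) = (y + c ᵥ* mp T D.V) j := fun j => liftG_x (p ^ a) D.H _ _ j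
  have hgy : ∀ j, g (y j) = (x ᵥ* mp E D.e) j := by
    intro j
    have h2 : g (y j) = g1 (xF (p ^ a) D.F j) := Algebra.TensorProduct.productMap_left_apply g1 g2 _
    rw [h2]
    exact liftF_x (p ^ a) D.F _ _ j
  have hgc : ∀ i, g (c i) = (x ᵥ* mp E D.W) i := by
    intro j
    have h2 : g (c j) = g2 (xG (p ^ a) (1 : Matrix (Fin k) (Fin k) A) j) :=
      Algebra.TensorProduct.productMap_right_apply g1 g2 _
    rw [h2]
    exact liftG_x (p ^ a) 1 _ _ j
  have hfx' : (fun i => f (x i)) = y + c ᵥ* mp T D.V := funext hfx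
  refine ⟨AlgEquiv.ofAlgHom f g ?_ ?_⟩
  · -- f ∘ g = id on T
    refine extT (A := A) (B := T) (p ^ a) D.F (1 : Matrix (Fin k) (Fin k) A) (f.comp g)
      (AlgHom.id A T) (fun j => ?_) (fun j => ?_)
    · change f (g (y j)) = y j
      have h5 : f ((x ᵥ* mp E D.e) j) = ((y + c ᵥ* mp T D.V) ᵥ* mp T D.e) j := by
        rw [← hfx']
        exact map_vm (A := A) (B := E) (B' := T) f x D.e j
      rw [hgy, h5, hx2]
    · change f (g (c j)) = c j
      have h5 : f ((x ᵥ* mp E D.W) j) = ((y + c ᵥ* mp T D.V) ᵥ* mp T D.W) j := by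
        rw [← hfx']
        exact map_vm (A := A) (B := E) (B' := T) f x D.W j
      rw [hgc, h5, hx3]
  · refine extG (A := A) (B := E) (p ^ a) D.H (g.comp f) (AlgHom.id A E) (fun j => ?_)
    change g (f (x j)) = x j
    rw [hfx]
    have h2 : g ((y + c ᵥ* mp T D.V) j) = g (y j) + g ((c ᵥ* mp T D.V) j) := by
      rw [Pi.add_apply, map_add]
    have h3 : (fun i => g (c i)) = x ᵥ* mp E D.W := funext hgc
    have h5 : g ((c ᵥ* mp T D.V) j) = ((x ᵥ* mp E D.W) ᵥ* mp E D.V) j := by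
      rw [← h3]
      exact map_vm (A := A) (B := T) (B' := E) g c D.V j
    rw [h2, hgy, h5, Matrix.vecMul_vecMul, ← mp_mul, ← Pi.add_apply, ← Matrix.vecMul_add, ← mp_add]
    have h4 : D.e + D.W * D.V = 1 := by
      unfold Dat.e
      exact sub_add_cancel _ _
    rw [h4, mp_one, Matrix.vecMul_one]

end Pool.Agent.Helper38.ET
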